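import Pool.Agent.KS6_71.PSQ.Short

/-!
# MP_435f72_co: for which alphabets and lengths is `PS(s) < n`?

`PS(s) < n` holds for all strings of length `n ≥ 1` over `σ ≥ 1` letters if and only if `σ ≤ 2`, or
`n ≤ 6`, or `(σ, n) = (3, 7)`. For every `σ ≥ 2` and every `n` the maximum of `PS` over the strings
of length `n` over `σ` letters is at least `((2 σ - 1) n - 6 σ ^ 2) / 4`; so the known bound `σ n`
has the right order of magnitude for every alphabet, and for every `σ ≥ 3` the inequality
`PS(s) < n` fails for strings of all large lengths.

Binary strings: the classes correspond to the factors `y c y` (`c` a letter) of the word of the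
differences, and a word of length `m` has at most `m` such factors. This is proved by counting the
small circuits in the Rauzy graphs of the word: the least edges of the small circuits can be removed
from the Rauzy graph and it stays connected.
-/

namespace Pool.Agent.Results.MP_435f72_co.Classification

open Pool.Agent.KS6_71.PSQ

/-- **Theorem.** (1) Let `σ, n ≥ 1`. All strings `s` of length `n` over an alphabet with `σ` letters
satisfy `PS s < n` if and only if `σ ≤ 2`, or `n ≤ 6`, or `σ = 3` and `n = 7`. (2) For `σ ≥ 2` and
every `n` there is a string of length `n` over `σ` letters with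
`4 PS s ≥ (2 σ - 1) n - 6 σ ^ 2`. -/
theorem result :
    (∀ σ n : ℕ, 1 ≤ σ → 1 ≤ n →
      ((∀ s : List (Fin σ), s.length = n → PS s < n) ↔
        σ ≤ 2 ∨ n ≤ 6 ∨ (σ = 3 ∧ n = 7))) ∧
    (∀ σ n : ℕ, 2 ≤ σ → ∃ s : List (Fin σ), s.length = n ∧
      (2 * σ - 1) * n ≤ 4 * PS s + 6 * σ ^ 2) := by
  refine ⟨?_, ?_⟩
  · intro σ n hσ hn
    constructor
    · intro hall
      by_contra hcon
      push Not at hcon
      obtain ⟨h1, h2, h3⟩ := hcon
      rcases Nat.lt_or_ge n 8 with h8 | h8
      · have hn7 : n = 7 := by omega
        subst hn7
        have hσ4 : 4 ≤ σ := by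
          by_contra hlt
          exact h3 (by omega) rfl
        have h4 := PS_le_map ([0, 1, 2, 0, 2, 1, 3] : List (Fin 4)) (Fin.castLE hσ4)
          (Fin.castLE_injective hσ4)
        rw [PS_eq [0, 1, 2, 0, 2, 1, 3]] at h4
        have h5 := hall (([0, 1, 2, 0, 2, 1, 3] : List (Fin 4)).map (Fin.castLE hσ4)) (by simp)
        have h6 := four_letters
        omega
      · obtain ⟨t, ht, hPS⟩ := ternary n h8
        have h3' : 3 ≤ σ := by omega
        have h4 := PS_le_map t (Fin.castLE h3') (Fin.castLE_injective h3')
        have h5 := hall (t.map (Fin.castLE h3')) (by simpa using ht)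
        omega
    · rintro (h | h | ⟨rfl, rfl⟩) s hs
      · have hs0 : s ≠ [] := by
          rintro rfl
          simp at hs
          omega
        have h2 : ∀ a b c : Fin σ, a = b ∨ b = c ∨ a = c := by
          intro a b c
          have := a.2
          have := b.2
          have := c.2
          simp only [Fin.ext_iff]
          omega
        have := PS_binary h2 s hs0
        omega
      · have hs0 : s ≠ [] := by
          rintro rfl
          simp at hs
          omega
        have := PS_short s hs0 (by omega)
        omega
      · exact PS_seven s hs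
  · intro σ n hσ
    rcases Nat.lt_or_ge n (3 * σ) with h | h
    · refine ⟨List.replicate n ⟨0, by omega⟩, by simp, ?_⟩
      have h1 : (2 * σ - 1) * n ≤ (2 * σ) * (3 * σ) := Nat.mul_le_mul (by omega) h.le
      have h2 : (2 * σ) * (3 * σ) = 6 * σ ^ 2 := by ring
      omega
    · obtain ⟨s, hs, h1⟩ := family σ n hσ h
      exact ⟨s, hs, by omega⟩

end Pool.Agent.Results.MP_435f72_co.Classification
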