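import Pool.Agent.KS6_32.PSQ.Lower

/-!
# MP_435f72_co, Q1: the maximal number of classes of parameterized squares is `n² / 12` asymptotically

Q1 asks whether `PS(s) < n` for every string of length `n`. Known so far: `PS(s) < σ n`, and the order
`n²` is reached (constants `1/36`, `3/64`, `1/16` over `n` letters; `σ n / 16` over `σ` letters). No
upper bound of the order `n²` with a constant below the trivial `1/4` was known. Here the leading
constant is determined: it is `1/12`, for `PS` and for `PS'`, with power-saving errors.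

UPPER BOUND (`KS6_32.PSQ.Upper`, `KS6_32.PSQ.Comb`). Keep of each class of parameterized squares its
last occurrence: a set `T` of pairs (start `a`, half-length `l`). Fix `K`. Call a window clean if it has
a period `δ ≤ K` up to a bijection of the letters.
* Pairs of `T` without a second pair of `T` with the same start and half-length larger by at most `K`:
  at most `(n + 1) (n / K + 1)`.
* Clean pairs: if `(a, l)` is in `T` and its window is clean with parameterized period `δ`, then it is
  the last of its class, so the period breaks soon after the window; the pairs with the same start and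
  the same `δ` have half-lengths within a range of length `δ`: at most `(n + 1) K²` pairs.
* The others: with `(a, l)` and `(a, l + δ)` in `T` both halves of the window are clean but the window is
  not. For ANY family of clean windows closed under subwindows the number of windows of even length that
  are not clean and have clean halves is at most `n² / 12 + 3 n + 3`: if `D m` is the set of the
  windows of length `m` that are not clean, then `|G_l| = |D_{2l}| - |U_l|` and
  `|D_l| ≤ 2 |U_l| + (3 l - n)⁺`, and the sum over `l` telescopes dyadically.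
`K = ⌈n^{1/3}⌉` gives the error term.

LOWER BOUND (`KS6_32.PSQ.Lower`). With `D ≈ n / 3` and `m ≈ √n` the letter at the position `p` is `p`,
except that the position `D + 2 (m + 1) j` carries the letter `2 m j`. Windows of length at most `D` have
no repeated letter, so every factor of length `2 l ≤ 2 D` is a parameterized square and not a square; the
distances `D + 2 j` of the equal letters are pairwise different, so a factor of length `2 l` with
`2 l ≥ D + O(√n)`, which contains a pair of equal letters, is determined by its class. This gives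
`Σ_{D/2 < l ≤ D} (n + 1 - 2 l) = n² / 12 - O(n^{3/2})` classes.
-/

set_option autoImplicit false

namespace Pool.Agent.Results.MP_435f72_co.ExactAsymptotics

open Pool.Agent.KS6_32.PSQ Filter Topology

theorem upper {α : Type} (s : List α) (h1 : 1 ≤ s.length) :
    (PS s : ℝ) ≤ (s.length : ℝ) ^ 2 / 12 + 18 * (s.length : ℝ) ^ (5 / 3 : ℝ) := by
  set n : ℝ := (s.length : ℝ) with hn
  have hn1 : (1 : ℝ) ≤ n := by rw [hn]; exact_mod_cast h1
  set x : ℝ := n ^ (1 / 3 : ℝ) with hx
  have hx1 : 1 ≤ x := Real.one_le_rpow hn1 (by norm_num)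
  have hx3 : x ^ 3 = n := by
    rw [hx, ← Real.rpow_natCast, ← Real.rpow_mul (by linarith)]
    norm_num
  have hx5 : n ^ (5 / 3 : ℝ) = n * x ^ 2 := by
    rw [hx, ← Real.rpow_natCast, ← Real.rpow_mul (by linarith)]
    nth_rewrite 2 [← Real.rpow_one n]
    rw [← Real.rpow_add (by linarith)]
    norm_num
  have hK1 : 1 ≤ ⌈x⌉₊ := Nat.one_le_ceil_iff.2 (by linarith)
  have h2 := T_card (s := s) hK1
  have h3 : (PS s : ℝ) ≤ ((T s).card : ℝ) := by exact_mod_cast PS_le (s := s)
  set K : ℝ := ((⌈x⌉₊ : ℕ) : ℝ) with hK
  have hKx : x ≤ K := Nat.le_ceil x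
  have hKx2 : K ≤ 2 * x := by
    have := Nat.ceil_lt_add_one (show 0 ≤ x by linarith)
    linarith
  have h4 : n / K ≤ x ^ 2 := by
    rw [div_le_iff₀ (by linarith)]
    calc n = x ^ 2 * x := by rw [← hx3]; ring
      _ ≤ x ^ 2 * K := by gcongr
  have h5 : K ^ 2 ≤ 4 * x ^ 2 := by nlinarith
  have hx2 : 1 ≤ x ^ 2 := by nlinarith
  have h6 : (n + 1) * (n / K + 1) ≤ (n + 1) * (x ^ 2 + 1) := by gcongr
  have h7 : (n + 1) * K ^ 2 ≤ (n + 1) * (4 * x ^ 2) := by gcongr
  rw [hx5]
  nlinarith

/-- THE MAXIMAL NUMBER OF CLASSES OF PARAMETERIZED SQUARES IN A STRING OF LENGTH `n` IS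
`n² / 12 + O(n^{5/3})`, with or without the ordinary squares. In particular the inequality `PS(s) < n` of
Q1 fails at every length `n ≥ 1444`. -/
theorem result :
    (∀ (α : Type) (s : List α), 1 ≤ s.length →
      (PS s : ℝ) ≤ (s.length : ℝ) ^ 2 / 12 + 18 * (s.length : ℝ) ^ (5 / 3 : ℝ)) ∧
    (∀ n : ℕ, ∃ s : List (Fin n), s.length = n ∧
      (n : ℝ) ^ 2 / 12 - 3 * (n : ℝ) ^ (3 / 2 : ℝ) ≤ PS' s ∧ PS' s ≤ PS s) ∧
    (∀ n : ℕ, 1444 ≤ n → ∃ s : List (Fin n), s.length = n ∧ n ≤ PS' s ∧ PS' s ≤ PS s) := by
  have h32 : ∀ n : ℕ, (n : ℝ) ^ (3 / 2 : ℝ) = n * √ (n : ℝ) := by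
    intro n
    rcases Nat.eq_zero_or_pos n with h | h
    · subst h
      norm_num
    · have : (0 : ℝ) < n := by exact_mod_cast h
      rw [Real.sqrt_eq_rpow]
      nth_rewrite 2 [← Real.rpow_one (n : ℝ)]
      rw [← Real.rpow_add this]
      norm_num
  refine ⟨fun α s => upper s, ?_, ?_⟩
  · intro n
    obtain ⟨s, h1, h2⟩ := lower n
    refine ⟨s, h1, ?_, ps'_le_ps s⟩
    rw [h32]
    exact h2
  · intro n hn
    obtain ⟨s, h1, h2⟩ := lower n
    refine ⟨s, h1, ?_, ps'_le_ps s⟩
    have hnR : (1444 : ℝ) ≤ n := by exact_mod_cast hn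
    have hr : (38 : ℝ) ≤ √ (n : ℝ) := by
      rw [show (38 : ℝ) = √ (1444 : ℝ) by
        rw [show (1444 : ℝ) = 38 ^ 2 by norm_num, Real.sqrt_sq (by norm_num)]]
      exact Real.sqrt_le_sqrt hnR
    have hr2 : √ (n : ℝ) ^ 2 = n := Real.sq_sqrt (by linarith)
    have h3 : (n : ℝ) ≤ PS' s := by
      refine le_trans ?_ h2
      have h4 : (0 : ℝ) ≤ n := by linarith
      have h5 : (12 : ℝ) ≤ n - 36 * √ (n : ℝ) := by nlinarith
      nlinarith
    exact_mod_cast h3

end Pool.Agent.Results.MP_435f72_co.ExactAsymptotics
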